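import Mathlib

namespace Pool.Agent.Results.MP_d6da6d_an.Counter

open Set MeasureTheory Real
open scoped ENNReal

/-- Fourier transform -/
noncomputable def FT (u : ℝ → ℝ) (ξ : ℝ) : ℂ :=
  ∫ x : ℝ, (u x : ℂ) * Complex.exp (-2 * π * Complex.I * ξ * x)

/-- the functional -/
noncomputable def Φ (α : ℝ) (u : ℝ → ℝ) : ℝ≥0∞ :=
  eLpNorm (fun ξ : ℝ => (ξ : ℂ) * FT u ξ) ⊤ volume ^ α *
    eLpNorm (fun x : ℝ => |x| ^ α * u x) 1 volume / eLpNorm u 1 volume ^ (α + 1)

noncomputable def step (b : ℕ → ℝ) : ℝ → ℝ :=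
  indicator (Icc (-1 / 2) (1 / 2)) fun x => b ⌊10 * x + 5⌋₊

noncomputable def a (j : ℕ) : ℝ := j / 10 - 1 / 2

theorem dec {E : Type*} [NormedAddCommGroup E] [NormedSpace ℝ E] (b : ℕ → ℝ) (F : ℝ → ℝ → E)
    (h0 : ∀ x, F x 0 = 0) (hc : ∀ c, Continuous fun x => F x c) :
    Integrable (fun x => F x (step b x)) ∧
      ∫ x, F x (step b x) = ∑ j ∈ Finset.range 10, ∫ x in a j..a (j + 1), F x (b j) := by
  have e : (fun x => F x (step b x)) =ᵐ[volume] fun x => ∑ j ∈ Finset.range 10,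
      indicator (Ico (a j) (a (j + 1))) (fun x => F x (b j)) x := by
    filter_upwards [volume.ae_ne (1 / 2 : ℝ)] with x hx
    by_cases h : x ∈ Icc (-1 / 2 : ℝ) (1 / 2)
    · have h1 : 0 ≤ 10 * x + 5 := by linarith [h.1]
      have h2 : ⌊10 * x + 5⌋₊ < 10 := by
        rw [Nat.floor_lt h1]
        have := lt_of_le_of_ne h.2 hx
        push_cast; linarith
      have h3 : ∀ j : ℕ, x ∈ Ico (a j) (a (j + 1)) ↔ ⌊10 * x + 5⌋₊ = j := fun j => by
        rw [Nat.floor_eq_iff h1, mem_Ico, a, a]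
        push_cast
        constructor <;> rintro ⟨p, q⟩ <;> constructor <;> linarith
      rw [step, indicator_of_mem h, Finset.sum_eq_single ⌊10 * x + 5⌋₊,
        indicator_of_mem ((h3 _).2 rfl)]
      · intro j _ hj
        exact indicator_of_notMem (fun h => hj ((h3 j).1 h).symm) _
      · intro h
        exact absurd (Finset.mem_range.2 h2) h
    · rw [step, indicator_of_notMem h, h0, eq_comm]
      refine Finset.sum_eq_zero fun j hj => indicator_of_notMem (fun hh => h ?_) _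
      have h1 : (j : ℝ) + 1 ≤ 10 := by exact_mod_cast Finset.mem_range.1 hj
      have h2 : (0 : ℝ) ≤ j := Nat.cast_nonneg j
      rw [mem_Ico, a, a] at hh
      push_cast at hh
      constructor <;> linarith [hh.1, hh.2]
  have i : ∀ j ∈ Finset.range 10,
      Integrable (indicator (Ico (a j) (a (j + 1))) (fun x => F x (b j))) := fun j _ =>
    (integrable_indicator_iff measurableSet_Ico).2
      (((hc _).integrableOn_Icc).mono_set Ico_subset_Icc_self)
  refine ⟨(integrable_finsetSum _ i).congr e.symm, ?_⟩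
  rw [integral_congr_ae e, integral_finsetSum _ i]
  refine Finset.sum_congr rfl fun j _ => ?_
  rw [integral_indicator measurableSet_Ico, integral_Ico_eq_integral_Ioc,
    intervalIntegral.integral_of_le]
  simp only [a]; push_cast; linarith

theorem ft (b : ℕ → ℝ) (ξ : ℝ) : ‖(ξ : ℂ) * FT (step b) ξ‖ =
    ‖∑ j ∈ Finset.range 10, (b j : ℂ) * (Complex.exp (-2 * π * Complex.I * ξ / 10) ^ (j + 1) -
      Complex.exp (-2 * π * Complex.I * ξ / 10) ^ j)‖ / (2 * π) := by
  by_cases h : ξ = 0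
  · simp [h]
  have hc : (-2 * π * Complex.I * ξ : ℂ) ≠ 0 := by simp [h, pi_ne_zero]
  have n1 : ‖(-2 * π * Complex.I : ℂ)‖ = 2 * π := by simp [abs_of_pos pi_pos]
  have n2 : ‖Complex.exp (π * ξ * Complex.I)‖ = 1 := by
    rw [← Complex.ofReal_mul, Complex.norm_exp_ofReal_mul_I]
  rw [eq_div_iff (by positivity), ← n1, ← norm_mul, ← one_mul ‖∑ j ∈ _, _‖, ← n2, ← norm_mul, FT,
    (dec b (fun x c => (c : ℂ) * Complex.exp (-2 * π * Complex.I * ξ * x)) (by simp)
      (fun c => by fun_prop)).2, Finset.mul_sum, Finset.sum_mul, Finset.mul_sum]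
  congr 1
  refine Finset.sum_congr rfl fun j _ => ?_
  have e : ∀ j : ℕ, Complex.exp (-2 * π * Complex.I * ξ * (a j : ℝ)) =
      Complex.exp (π * ξ * Complex.I) * Complex.exp (-2 * π * Complex.I * ξ / 10) ^ j := fun j => by
    rw [← Complex.exp_nat_mul, ← Complex.exp_add, a]
    congr 1
    push_cast; ring
  rw [intervalIntegral.integral_const_mul, integral_exp_mul_complex hc, e, e]
  have h1 : (ξ : ℂ) ≠ 0 := by exact_mod_cast h
  have h2 : (π : ℂ) ≠ 0 := by exact_mod_cast pi_ne_zero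
  field_simp

noncomputable def ev (l : List ℤ) (z : ℂ) : ℂ := l.foldr (fun (c : ℤ) (s : ℂ) => (c : ℂ) + z * s) 0

theorem ev_le (l : List ℤ) {z : ℂ} (hz : ‖z‖ = 1) :
    ‖ev l z‖ ≤ ((l.map Int.natAbs).sum : ℕ) := by
  induction l with
  | nil => simp [ev]
  | cons c l ih =>
    refine (norm_add_le _ _).trans ?_
    rw [norm_mul, hz, one_mul, List.map_cons, List.sum_cons, Nat.cast_add, Complex.norm_intCast,
      Nat.cast_natAbs, Int.cast_abs]
    exact add_le_add_right ih _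

theorem key {z : ℂ} (hz : ‖z‖ = 1) :
    ‖ev [-300, -53, 494, -571, -160, -214, 124, 177, 247, 162, 94] z‖ ^ 2 ≤ 1027100 := by
  have h0 : z ≠ 0 := fun h => by simp [h] at hz
  have h : ((‖ev [-300, -53, 494, -571, -160, -214, 124, 177, 247, 162, 94] z‖ ^ 2 +
      ‖ev [290, 90, 49, 33, 56, 62, 39, 81, 60, 155, 97] z‖ ^ 2 : ℝ) : ℂ) * z ^ 10 =
      ev [-70, 98, -147, -151, -18, 126, 156, -99, -90, -164, 1024862, -164, -90, -99, 156, 126,
        -18, -151, -147, 98, -70] z := by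
    push_cast
    rw [← Complex.conj_mul', ← Complex.conj_mul']
    simp only [ev, List.foldr, map_add, map_mul, map_intCast, map_zero, ← Complex.inv_eq_conj hz]
    push_cast
    field_simp
    ring
  have h2 := ev_le [-70, 98, -147, -151, -18, 126, 156, -99, -90, -164, 1024862, -164, -90, -99,
    156, 126, -18, -151, -147, 98, -70] hz
  rw [← h, norm_mul, norm_pow, hz, Complex.norm_real, Real.norm_of_nonneg (by positivity)] at h2
  norm_num at h2
  nlinarith [sq_nonneg ‖ev [290, 90, 49, 33, 56, 62, 39, 81, 60, 155, 97] z‖]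

def b (j : ℕ) : ℝ := [300, 353, -141, 430, 590, 804, 680, 503, 256, 94].getD j 1

theorem l1 (b : ℕ → ℝ) : eLpNorm (step b) 1 volume =
    ENNReal.ofReal (∑ j ∈ Finset.range 10, |b j| / 10) := by
  rw [eLpNorm_one_eq_lintegral_enorm, ← ofReal_integral_norm_eq_lintegral_enorm
    (dec b (fun _ c => c) (by simp) (fun c => by fun_prop)).1,
    (dec b (fun _ c => ‖c‖) (by simp) (fun c => by fun_prop)).2]
  congr 1
  refine Finset.sum_congr rfl fun j _ => ?_
  simp [a]; ring

theorem l2 (b : ℕ → ℝ) : eLpNorm (fun x : ℝ => |x| ^ (2 : ℝ) * step b x) 1 volume =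
    ENNReal.ofReal (∑ j ∈ Finset.range 10, |b j| * ((a (j + 1) ^ 3 - a j ^ 3) / 3)) := by
  simp only [Real.rpow_two, sq_abs]
  rw [eLpNorm_one_eq_lintegral_enorm, ← ofReal_integral_norm_eq_lintegral_enorm
    (dec b (fun x c => x ^ 2 * c) (by simp) (fun c => by fun_prop)).1,
    (dec b (fun x c => ‖x ^ 2 * c‖) (by simp) (fun c => by fun_prop)).2]
  congr 1
  refine Finset.sum_congr rfl fun j _ => ?_
  simp only [norm_mul, norm_pow, Real.norm_eq_abs, sq_abs]
  rw [intervalIntegral.integral_mul_const, integral_pow]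
  norm_num; ring

theorem result : ∃ u : ℝ → ℝ, Integrable u ∧ (∀ x ∉ Icc (-1 / 2 : ℝ) (1 / 2), u x = 0) ∧
    (∀ x ∈ Icc (-1 / 2 : ℝ) (1 / 2), u x ≠ 0) ∧
    Φ 2 u < Φ 2 (indicator (Icc (-1 / 2 : ℝ) (1 / 2)) 1) := by
  refine ⟨step b, (dec b (fun _ c => c) (by simp) (fun c => by fun_prop)).1,
    fun x hx => indicator_of_notMem hx _, fun x hx => ?_, ?_⟩
  · rw [step, indicator_of_mem hx]
    generalize ⌊10 * x + 5⌋₊ = j
    by_cases h : j < 10
    · interval_cases j <;> simp [b]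
    · rw [b, List.getD_eq_default _ _ (by simpa using h)]; simp
  have hz : ∀ ξ : ℝ, ‖Complex.exp (-2 * π * Complex.I * ξ / 10)‖ = 1 := fun ξ => by
    rw [← Complex.norm_exp_ofReal_mul_I (-2 * π * ξ / 10)]
    congr 2
    push_cast; ring
  have u1 : eLpNorm (fun ξ : ℝ => (ξ : ℂ) * FT (step b) ξ) ⊤ volume ≤
      ENNReal.ofReal (1014 / (2 * π)) := by
    rw [eLpNorm_exponent_top]
    refine eLpNormEssSup_le_of_ae_bound (ae_of_all _ fun ξ => ?_)
    rw [ft]
    refine div_le_div_of_nonneg_right ?_ (by positivity)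
    have := key (hz ξ)
    generalize Complex.exp (-2 * π * Complex.I * ξ / 10) = z at this
    have e : ∑ j ∈ Finset.range 10, (b j : ℂ) * (z ^ (j + 1) - z ^ j) =
        ev [-300, -53, 494, -571, -160, -214, 124, 177, 247, 162, 94] z := by
      simp [Finset.sum_range_succ, b, ev]; ring
    rw [e]
    exact (abs_le_of_sq_le_sq' (by linarith) (by norm_num)).2
  have u2 : ENNReal.ofReal (2 / (2 * π)) ≤
      eLpNorm (fun ξ : ℝ => (ξ : ℂ) * FT (step fun _ => 1) ξ) ⊤ volume := by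
    rw [eLpNorm_exponent_top]
    have h1 := ae_le_eLpNormEssSup (f := fun ξ : ℝ => (ξ : ℂ) * FT (step fun _ => 1) ξ)
      (μ := volume)
    generalize eLpNormEssSup (fun ξ : ℝ => (ξ : ℂ) * FT (step fun _ => 1) ξ) volume = c at h1 ⊢
    simp only [← ofReal_norm, ft] at h1
    have h2 := Measure.dense_of_ae h1 (1 / 2)
    rw [IsClosed.closure_eq (isClosed_le (ENNReal.continuous_ofReal.comp' (by fun_prop))
      continuous_const)] at h2
    refine le_trans (le_of_eq ?_) h2
    simp only [Complex.ofReal_one, one_mul]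
    rw [Finset.sum_range_sub fun j => Complex.exp (-2 * π * Complex.I * (1 / 2 : ℝ) / 10) ^ j,
      ← Complex.exp_nat_mul, show ((10 : ℕ) * (-2 * π * Complex.I * (1 / 2 : ℝ) / 10) : ℂ) =
        -(π * Complex.I) by push_cast; ring, Complex.exp_neg, Complex.exp_pi_mul_I]
    norm_num
  have c1 : indicator (Icc (-1 / 2 : ℝ) (1 / 2)) 1 = step fun _ => 1 := rfl
  rw [c1, Φ, Φ, l1, l1, l2, l2]
  have s1 : ∑ j ∈ Finset.range 10, |b j| / 10 = 4151 / 10 := by
    simp [Finset.sum_range_succ, b]; norm_num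
  have s2 : ∑ j ∈ Finset.range 10, |b j| * ((a (j + 1) ^ 3 - a j ^ 3) / 3) = 67967 / 3000 := by
    simp [Finset.sum_range_succ, b, a]; norm_num
  have s3 : ∑ _j ∈ Finset.range 10, |(1 : ℝ)| / 10 = 1 := by norm_num
  have s4 : ∑ j ∈ Finset.range 10, |(1 : ℝ)| * ((a (j + 1) ^ 3 - a j ^ 3) / 3) = 1 / 12 := by
    simp [Finset.sum_range_succ, a]; norm_num
  rw [s1, s2, s3, s4]
  calc _ ≤ ENNReal.ofReal (1014 / (2 * π)) ^ (2 : ℝ) * ENNReal.ofReal (67967 / 3000) /
        ENNReal.ofReal (4151 / 10) ^ ((2 : ℝ) + 1) := by gcongr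
    _ < ENNReal.ofReal (2 / (2 * π)) ^ (2 : ℝ) * ENNReal.ofReal (1 / 12) /
        ENNReal.ofReal 1 ^ ((2 : ℝ) + 1) := by
      have p := pi_pos
      rw [ENNReal.ofReal_rpow_of_pos (by positivity), ENNReal.ofReal_rpow_of_pos (by positivity),
        ENNReal.ofReal_rpow_of_pos (by positivity), ENNReal.ofReal_rpow_of_pos (by positivity),
        ← ENNReal.ofReal_mul (by positivity), ← ENNReal.ofReal_mul (by positivity),
        ← ENNReal.ofReal_div_of_pos (by positivity), ← ENNReal.ofReal_div_of_pos (by positivity),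
        ENNReal.ofReal_lt_ofReal_iff (by positivity), show (2 : ℝ) + 1 = (3 : ℕ) by norm_num,
        Real.rpow_natCast, Real.rpow_natCast, Real.rpow_two, Real.rpow_two]
      field_simp
      norm_num
    _ ≤ _ := by gcongr

end Pool.Agent.Results.MP_d6da6d_an.Counter
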